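import Pool.Agent.Helper79_MT4.Stmt

/-! Module ORB of the squad MT4: the cone over the orbit of `N`. -/

set_option autoImplicit false

namespace Pool.Agent.MT4.H44

open Module LinearMap Polynomial

universe u v w

/-- a nonzero multiple of a rank one endomorphism is of rank one -/
theorem rankOne_smul {K : Type u} {V : Type v} [Field K] [AddCommGroup V] [Module K V]
    (A : End K V) (hA : RankOne A) (k : K) (hk : k ≠ 0) : RankOne (k • A) := by
  obtain ⟨x, φ, hx, hφ, rfl⟩ := hA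
  refine ⟨k • x, φ, smul_ne_zero hk hx, hφ, ?_⟩
  ext y
  simp [smul_comm k (φ y) x]

/-- a nonzero multiple of an element of `R0` is in `R0` -/
theorem R0_smul {K : Type u} {V : Type v} {ι : Type w} [Field K] [AddCommGroup V] [Module K V]
    (e : ι → End K V) (g : Submodule K (End K V)) (M : End K V) (hM : M ∈ R0 e g) (k : K)
    (hk : k ≠ 0) : k • M ∈ R0 e g := by
  obtain ⟨h1, h2, h3⟩ := hM
  refine ⟨g.smul_mem k h1, ?_, fun i => ?_⟩
  · rw [smul_mul_assoc, mul_smul_comm, h2, smul_zero, smul_zero]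
  · rw [smul_mul_assoc]
    exact rankOne_smul _ (h3 i) k hk

theorem orb (hG : GrpStmt.{u, v, w}) : OrbStmt.{u, v, w} := by
  intro K V ι _ _ _ _ _ ψ e σ g N hB hN
  have hR : ∀ M ∈ Orb e g N, M ∈ R0 e g := by
    rintro M ⟨k, a, b, hk, hab, rfl⟩
    obtain ⟨-, -, -, -, -, h6, -, -⟩ := hG K V ι ψ e σ g hB a b hab
    exact R0_smul e g _ (h6 N hN) k hk
  have hconj : ∀ M ∈ Orb e g N, ∀ a b : End K V, Gp e g a b → a * M * b ∈ Orb e g N := by
    rintro M ⟨k, c, d, hk, hcd, rfl⟩ a b hab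
    obtain ⟨-, -, -, -, -, -, -, h8⟩ := hG K V ι ψ e σ g hB a b hab
    refine ⟨k, a * c, d * b, hk, h8 c d hcd, ?_⟩
    rw [mul_smul_comm, smul_mul_assoc]
    simp only [mul_assoc]
  refine ⟨⟨1, 1, 1, one_ne_zero, Gp.one, by simp⟩, hR, ?_, hconj, ?_⟩
  · rintro M ⟨k, c, d, hk, hcd, rfl⟩ k' hk'
    exact ⟨k' * k, c, d, mul_ne_zero hk' hk, hcd, by rw [smul_smul]⟩
  · intro M hM L hL t
    have h := Gp.uni (e := e) (g := g) L (hR L hL) t 1 1 Gp.one
    rw [mul_one, one_mul] at h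
    exact hconj M hM _ _ h

end Pool.Agent.MT4.H44
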