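import Pool.Agent.Helper79_MT4.Stmt

/-! Module PATH of the squad MT4: polynomial curves in the group `Gp`. -/

set_option autoImplicit false

namespace Pool.Agent.MT4.H44

open Module LinearMap Polynomial

universe u v w

theorem path (hC : CurStmt.{u, v}) (_hG : GrpStmt.{u, v, w}) : PathStmt.{u, v, w} := by
  intro K V ι _ _ _ _ _ ψ e σ g hB a b hab
  obtain ⟨c1, c2, c3, c4, c5, -, -⟩ := hC K V
  induction hab with
  | one =>
    refine ⟨fun _ => 1, fun _ => 1, 1, c1 1, c1 1, rfl, rfl, by simp, by simp, ?_⟩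
    intro s _
    exact ⟨1, 1, one_ne_zero, Gp.one, by simp⟩
  | uni M hM t a b _ ih =>
    obtain ⟨p, q, c, hp, hq, hp0, hp1, hc0, hc1, h⟩ := ih
    have hl : IsCurve (fun s : K => (C t * X : K[X]).eval s • M) := c5 (C t * X) (fun _ => M) (c1 M)
    refine ⟨fun s => (1 + (C t * X : K[X]).eval s • M) * p s,
      fun s => q s * (1 - (C t * X : K[X]).eval s • M), c,
      c4 _ _ (c2 _ _ (c1 1) hl) hp, c4 _ _ hq (c3 _ _ (c1 1) hl), ?_, ?_, hc0, hc1, ?_⟩
    · simp [hp0]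
    · simp [hp1]
    · intro s hs
      obtain ⟨b', k, hk, hg, hqs⟩ := h s hs
      refine ⟨b' * (1 - (C t * X : K[X]).eval s • M), k, hk, Gp.uni M hM _ _ _ hg, ?_⟩
      show q s * (1 - (C t * X : K[X]).eval s • M) = _
      rw [hqs, smul_mul_assoc]
  | tor h hh t ht a b _ ih =>
    obtain ⟨p, q, c, hp, hq, hp0, hp1, hc0, hc1, hyp⟩ := ih
    set τ : K[X] := 1 + X * C (t - 1) with hτ
    have hτ0 : τ.eval 0 = 1 := by simp [hτ]
    have hτ1 : τ.eval 1 = t := by simp [hτ]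
    set P : End K V := (1 / 2 : K) • 1 + h with hP
    set Q : End K V := (1 / 2 : K) • 1 - h with hQ
    refine ⟨fun s => (P + τ.eval s • Q) * p s, fun s => q s * (τ.eval s • P + Q), c * τ,
      c4 _ _ (c2 _ _ (c1 P) (c5 τ _ (c1 Q))) hp, c4 _ _ hq (c2 _ _ (c5 τ _ (c1 P)) (c1 Q)),
      ?_, ?_, ?_, ?_, ?_⟩
    · have hPQ : P + Q = 1 := by
        rw [hP, hQ]
        have : (1 / 2 : K) • (1 : End K V) + h + ((1 / 2 : K) • 1 - h)
            = ((1 / 2 : K) + 1 / 2) • (1 : End K V) := by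
          rw [add_smul]; abel
        rw [this, add_halves, one_smul]
      show (P + τ.eval 0 • Q) * p 0 = 1
      rw [hτ0, hp0, one_smul, hPQ, mul_one]
    · show (P + τ.eval 1 • Q) * p 1 = _
      rw [hτ1, hp1]
    · rw [eval_mul, hτ0, mul_one]; exact hc0
    · rw [eval_mul, hτ1]; exact mul_ne_zero hc1 ht
    · intro s hs
      rw [eval_mul] at hs
      have hcs : c.eval s ≠ 0 := left_ne_zero_of_mul hs
      have hts : τ.eval s ≠ 0 := right_ne_zero_of_mul hs
      obtain ⟨b', k, hk, hg, hqs⟩ := hyp s hcs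
      refine ⟨b' * (P + (τ.eval s)⁻¹ • Q), k * τ.eval s, mul_ne_zero hk hts,
        Gp.tor h hh _ hts _ _ hg, ?_⟩
      show q s * (τ.eval s • P + Q) = _
      have h1 : τ.eval s • P + Q = τ.eval s • (P + (τ.eval s)⁻¹ • Q) := by
        rw [smul_add (τ.eval s) P, smul_smul, mul_inv_cancel₀ hts, one_smul]
      rw [hqs, h1, smul_mul_assoc, mul_smul_comm, smul_smul]

end Pool.Agent.MT4.H44
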